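import Pool.Agent.W2helper87.TC.TotA

/-!
# Extending total colourings in locally sparse graphs with few vertices of degree near `Δ`

A deterministic theorem. In the starting theorem `SparseLargeDegrees` the vertices of degree more than
`D - K √(D log n)` have to form a sparse part of the graph, with one large constant `K`, or those of
degree more than `D - ε √(n log n)`; here only those of degree more than `D - ε √(D log n)` are
exceptional, for an arbitrary `ε > 0`, if the graph has degrees at most `n ^ κ` and is locally sparse.

The matching and a set `T` of exceptional vertices are removed with the starting theorems `wrap` and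
`comb_mainH`. The other edges have lists of `D - 1` colours and form a graph of maximum degree at most
`D - ε √(D log n)`; it is coloured by splitting the vertices and the colours at random, a bounded number
of times, and by Galvin's theorem. The vertices at which a splitting fails are put into `T`; there are
few of them, and every other vertex has a bounded number of neighbours in a slightly larger set.
-/

set_option autoImplicit false

namespace Pool.Agent.Results.MP_db9399_co.LocallySparseGraphs

/-- The colours `c` of the vertices and `d` of the edges form a total colouring of `G`: adjacent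
vertices get different colours, distinct edges with a common end get different colours, and an edge
gets a colour different from the colours of its ends. (Values of `d` at pairs that are not edges of
`G` play no role.) -/
structure IsTotalColoring {V : Type} (G : SimpleGraph V) (c : V → ℕ) (d : Sym2 V → ℕ) :
    Prop where
  vert : ∀ u v, G.Adj u v → c u ≠ c v
  edge : ∀ u v w, G.Adj u v → G.Adj u w → v ≠ w → d s(u, v) ≠ d s(u, w)
  inc : ∀ u v, G.Adj u v → d s(u, v) ≠ c u

/-- `H` (with vertex set `H.support`) is a distance-3 matching in `G`. -/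
structure IsDistThreeMatching {V : Type} (G H : SimpleGraph V) : Prop where
  le : H ≤ G
  matching : ∀ u v w, H.Adj u v → H.Adj u w → v = w
  dist : ∀ u ∈ H.support, ∀ v ∈ H.support, u ≠ v → ¬ H.Adj u v → 3 ≤ G.edist u v

/-- Every total colouring of `H` with the colours `0, …, k - 1` extends to a total colouring of
`G` with these colours. -/
def Extends {V : Type} (G H : SimpleGraph V) (k : ℕ) : Prop :=
  ∀ (c : V → ℕ) (d : Sym2 V → ℕ), IsTotalColoring H c d →
    (∀ v ∈ H.support, c v < k) → (∀ e ∈ H.edgeSet, d e < k) →
    ∃ (c' : V → ℕ) (d' : Sym2 V → ℕ), IsTotalColoring G c' d' ∧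
      (∀ v ∈ H.support, c' v = c v) ∧ (∀ e ∈ H.edgeSet, d' e = d e) ∧
      (∀ v, c' v < k) ∧ ∀ e ∈ G.edgeSet, d' e < k

/-- Whenever every vertex and every edge of `G` has a list of at least `k` colours, every total
colouring of `H` (with any colours) extends to a total colouring of `G` in which the vertices and
edges outside `H` get colours from their lists. -/
def ListExtends {V : Type} (G H : SimpleGraph V) (k : ℕ) : Prop :=
  ∀ (L : V → Finset ℕ) (M : Sym2 V → Finset ℕ), (∀ v, k ≤ (L v).card) →
    (∀ e ∈ G.edgeSet, k ≤ (M e).card) →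
    ∀ (c : V → ℕ) (d : Sym2 V → ℕ), IsTotalColoring H c d →
      ∃ (c' : V → ℕ) (d' : Sym2 V → ℕ), IsTotalColoring G c' d' ∧
        (∀ v ∈ H.support, c' v = c v) ∧ (∀ e ∈ H.edgeSet, d' e = d e) ∧
        (∀ v, v ∉ H.support → c' v ∈ L v) ∧
        ∀ e ∈ G.edgeSet, e ∉ H.edgeSet → d' e ∈ M e

theorem list_of_old {V : Type} (G H : SimpleGraph V) (k : ℕ)
    (h : Pool.Agent.Results.MP_db9399_co.SparseLargeDegrees.ListExtends G H k) :
    ListExtends G H k := by
  intro L M hL hM c d hcd
  obtain ⟨c', d', h1, h2⟩ := h L M hL hM c d ⟨hcd.vert, hcd.edge, hcd.inc⟩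
  exact ⟨c', d', ⟨h1.vert, h1.edge, h1.inc⟩, h2⟩

theorem ext_of_list {V : Type} (G H : SimpleGraph V) (k : ℕ) (h : ListExtends G H k) :
    Extends G H k := by
  intro c d hcd hc hd
  obtain ⟨c', d', h1, h2, h3, h4, h5⟩ := h (fun _ => Finset.range k) (fun _ => Finset.range k)
    (fun _ => by simp) (fun _ _ => by simp) c d hcd
  refine ⟨c', d', h1, h2, h3, fun v => ?_, fun e he => ?_⟩
  · by_cases hv : v ∈ H.support
    · rw [h2 v hv]
      exact hc v hv
    · exact Finset.mem_range.1 (h4 v hv)
  · by_cases he' : e ∈ H.edgeSet
    · rw [h3 e he']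
      exact hd e he'
    · exact Finset.mem_range.1 (h5 e he he')

/-- For every `ε > 0` there is `κ > 0`, and for every `A` there are `C` and `n₀`, such that the
following holds for every graph `G` on `n ≥ n₀` vertices and every `D` with
`C log n ≤ D ≤ n ^ κ`. Suppose all degrees are at most `D`, at most `n ^ (1 - κ)` vertices have degree
more than `D - ε √(D log n)`, and every set `X` of at most `9 n ^ (1 - κ)` vertices spans at most
`A |X| / 2` edges (at most `A |X|` ordered pairs of adjacent vertices). Then for all distance-3
matchings `H` in `G` and all `k ≥ D + 1`, total colourings of `H` with `k` colours extend to total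
colourings of `G`, also from lists of `k` colours. -/
theorem result : ∀ ε : ℝ, 0 < ε → ∃ κ : ℝ, 0 < κ ∧ ∀ A : ℝ, ∃ C : ℝ, ∃ n₀ : ℕ, ∀ n : ℕ, n₀ ≤ n →
    ∀ (G : SimpleGraph (Fin n)) (D : ℕ),
      (∀ v, (G.neighborSet v).ncard ≤ D) → C * Real.log n ≤ D → (D : ℝ) ≤ (n : ℝ) ^ κ →
      (({v : Fin n | (D : ℝ) - ε * Real.sqrt (D * Real.log n) < (G.neighborSet v).ncard}.ncard : ℝ) ≤
        (n : ℝ) ^ (1 - κ)) →
      (∀ X : Finset (Fin n), (X.card : ℝ) ≤ 9 * (n : ℝ) ^ (1 - κ) →
        ({e : Fin n × Fin n | e.1 ∈ X ∧ e.2 ∈ X ∧ G.Adj e.1 e.2}.ncard : ℝ) ≤ A * X.card) →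
      ∀ H : SimpleGraph (Fin n), IsDistThreeMatching G H → ∀ k : ℕ, D + 1 ≤ k →
        Extends G H k ∧ ListExtends G H k := by
  classical
  intro ε hε
  obtain ⟨κ, hκ0, -, h⟩ := Pool.Agent.W2helper87.TC.total_local (min ε (1 / 2000))
    (lt_min hε (by norm_num)) (min_le_right _ _)
  refine ⟨κ, hκ0, fun A => ?_⟩
  obtain ⟨C, hC, n₀, h⟩ := h (max A 1) (lt_of_lt_of_le zero_lt_one (le_max_right _ _))
  refine ⟨C, n₀, fun n hn G D hdeg hCD hDn hfew hsp H hH k hk => ?_⟩
  have hLE : ListExtends G H k := by
    apply list_of_old
    refine h n hn G D (fun v => by rw [Pool.Agent.H162R2.Sparse.dg_eq_ncard]; exact hdeg v) hCD hDn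
      ?_ ?_ H ⟨hH.le, hH.matching, hH.dist⟩ k hk
    · refine le_trans ?_ hfew
      rw [Set.ncard_eq_toFinset_card']
      have h1 : (Finset.univ.filter (fun v => (D : ℝ) - min ε (1 / 2000) *
          Real.sqrt (D * Real.log n) < Pool.Agent.H162R2.Sparse.dg G v)) ⊆
          {v : Fin n | (D : ℝ) - ε * Real.sqrt (D * Real.log n) <
            (G.neighborSet v).ncard}.toFinset := by
        intro v hv
        rw [Finset.mem_filter] at hv
        rw [Set.mem_toFinset, Set.mem_ofPred_eq, ← Pool.Agent.H162R2.Sparse.dg_eq_ncard]
        refine lt_of_le_of_lt ?_ hv.2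
        have : min ε (1 / 2000) * Real.sqrt (D * Real.log n) ≤
            ε * Real.sqrt (D * Real.log n) := by
          gcongr
          exact min_le_left _ _
        linarith
      exact_mod_cast Finset.card_le_card h1
    · intro X hX
      have h1 := hsp X hX
      have h2 : Pool.Agent.W2helper87.SR.e2 G X ≤ A * X.card := by
        refine le_trans (le_of_eq ?_) h1
        unfold Pool.Agent.W2helper87.SR.e2
        rw [Set.ncard_eq_toFinset_card']
        congr 2
        ext e
        simp only [Finset.mem_filter, Pool.Agent.H162R2.Sparse.mem_pr, Set.mem_toFinset,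
          Set.mem_ofPred_eq]
        tauto
      refine h2.trans ?_
      have h3 : A ≤ max A 1 := le_max_left _ _
      gcongr
  exact ⟨ext_of_list G H k hLE, hLE⟩

end Pool.Agent.Results.MP_db9399_co.LocallySparseGraphs
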