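import Pool.Agent.W2helper87.TC.JumT

/-!
# Extending total colourings of distance-3 matchings in pseudo-random and in almost dense graphs

Deterministic theorems. Let `D` be the maximum degree of a graph with `n` vertices. If
`D ≥ 2 (log n) ^ 3`, the numbers of edges between any two sets of vertices are at most a constant
times those expected in a random graph up to an error term, at most `c n √(log n / D)` vertices have
a degree more than `D - ε √(D log n)`, and every vertex has at most `b ≤ c √(D log n)` neighbours of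
degree more than `D - 2 b - 2`, then total colourings of distance-3 matchings extend from lists of
`D + 1` colours. The same holds for all graphs with `D ≥ n ^ (1 - κ)` in which at most
`c √(D log n)` vertices have a degree more than `D - ε √(D log n)`.

The matching is removed and the vertices of degree close to `D` are coloured first together with
their edges, with the starting theorems `wrap` and `comb_mainH`. The remaining edges form a graph of
maximum degree at most `D - 2 b - 2`, and have lists of at least this size. For this graph there is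
no slack, and it is coloured by the deterministic theorem behind the result `PseudorandomGraphs` on
the list edge-colouring conjecture (`MP_2f9829_co`).
-/

set_option autoImplicit false

namespace Pool.Agent.Results.MP_db9399_co.PseudorandomGraphs

/-- The colours `c` of the vertices and `d` of the edges form a total colouring of `G`: adjacent
vertices get different colours, distinct edges with a common end get different colours, and an edge
gets a colour different from the colours of its ends. (Values of `d` at pairs that are not edges of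
`G` play no role.) -/
structure IsTotalColoring {V : Type} (G : SimpleGraph V) (c : V → ℕ) (d : Sym2 V → ℕ) :
    Prop where
  vert : ∀ u v, G.Adj u v → c u ≠ c v
  edge : ∀ u v w, G.Adj u v → G.Adj u w → v ≠ w → d s(u, v) ≠ d s(u, w)
  inc : ∀ u v, G.Adj u v → d s(u, v) ≠ c u

/-- `H` (with vertex set `H.support`) is a distance-3 matching in `G`. -/
structure IsDistThreeMatching {V : Type} (G H : SimpleGraph V) : Prop where
  le : H ≤ G
  matching : ∀ u v w, H.Adj u v → H.Adj u w → v = w
  dist : ∀ u ∈ H.support, ∀ v ∈ H.support, u ≠ v → ¬ H.Adj u v → 3 ≤ G.edist u v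

/-- Every total colouring of `H` with the colours `0, …, k - 1` extends to a total colouring of
`G` with these colours. -/
def Extends {V : Type} (G H : SimpleGraph V) (k : ℕ) : Prop :=
  ∀ (c : V → ℕ) (d : Sym2 V → ℕ), IsTotalColoring H c d →
    (∀ v ∈ H.support, c v < k) → (∀ e ∈ H.edgeSet, d e < k) →
    ∃ (c' : V → ℕ) (d' : Sym2 V → ℕ), IsTotalColoring G c' d' ∧
      (∀ v ∈ H.support, c' v = c v) ∧ (∀ e ∈ H.edgeSet, d' e = d e) ∧
      (∀ v, c' v < k) ∧ ∀ e ∈ G.edgeSet, d' e < k

/-- Whenever every vertex and every edge of `G` has a list of at least `k` colours, every total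
colouring of `H` (with any colours) extends to a total colouring of `G` in which the vertices and
edges outside `H` get colours from their lists. -/
def ListExtends {V : Type} (G H : SimpleGraph V) (k : ℕ) : Prop :=
  ∀ (L : V → Finset ℕ) (M : Sym2 V → Finset ℕ), (∀ v, k ≤ (L v).card) →
    (∀ e ∈ G.edgeSet, k ≤ (M e).card) →
    ∀ (c : V → ℕ) (d : Sym2 V → ℕ), IsTotalColoring H c d →
      ∃ (c' : V → ℕ) (d' : Sym2 V → ℕ), IsTotalColoring G c' d' ∧
        (∀ v ∈ H.support, c' v = c v) ∧ (∀ e ∈ H.edgeSet, d' e = d e) ∧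
        (∀ v, v ∉ H.support → c' v ∈ L v) ∧
        ∀ e ∈ G.edgeSet, e ∉ H.edgeSet → d' e ∈ M e

/-- The number of vertices of degree more than `x`. -/
noncomputable def above {n : ℕ} (G : SimpleGraph (Fin n)) (x : ℝ) : ℕ :=
  {v : Fin n | x < (G.neighborSet v).ncard}.ncard

/-- The number of pairs `(x, y)` of adjacent vertices with `x ∈ X` and `y ∈ Y`. -/
noncomputable def between {n : ℕ} (G : SimpleGraph (Fin n)) (X Y : Finset (Fin n)) : ℕ :=
  {e : Fin n × Fin n | e.1 ∈ X ∧ e.2 ∈ Y ∧ G.Adj e.1 e.2}.ncard

theorem dg_eq {n : ℕ} (G : SimpleGraph (Fin n)) (v : Fin n) :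
    (G.neighborSet v).ncard = Pool.Agent.H162R2.Sparse.dg G v := by
  rw [Pool.Agent.H162R2.Sparse.dg_eq_ncard]

open Classical in
theorem above_eq {n : ℕ} (G : SimpleGraph (Fin n)) (x : ℝ) :
    above G x = (Finset.univ.filter
      (fun v => x < (Pool.Agent.H162R2.Sparse.dg G v : ℝ))).card := by
  unfold above
  rw [Set.ncard_eq_toFinset_card']
  congr 1
  ext v
  simp only [Finset.mem_filter, Finset.mem_univ, true_and, Set.mem_toFinset, Set.mem_ofPred_eq,
    dg_eq]

theorem between_eq {n : ℕ} (G : SimpleGraph (Fin n)) (X Y : Finset (Fin n)) :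
    (between G X Y : ℝ) = Pool.Agent.W2helper87.TC.eXY G X Y := by
  classical
  unfold between Pool.Agent.W2helper87.TC.eXY
  have h1 : {e : Fin n × Fin n | e.1 ∈ X ∧ e.2 ∈ Y ∧ G.Adj e.1 e.2} =
      ((X.biUnion (fun v => ((Pool.Agent.H162R2.Sparse.nb G v).filter (fun w => w ∈ Y)).image
        (fun w => (v, w))) : Finset (Fin n × Fin n)) : Set (Fin n × Fin n)) := by
    ext ⟨a, b⟩
    simp only [Set.mem_ofPred_eq, Finset.coe_biUnion, Finset.coe_image, Set.mem_iUnion,
      Set.mem_image, Finset.mem_coe, Finset.mem_filter, Pool.Agent.H162R2.Sparse.mem_nb]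
    constructor
    · rintro ⟨ha, hb, hab⟩
      exact ⟨a, ha, b, ⟨hab, hb⟩, rfl⟩
    · rintro ⟨v, hv, w, ⟨hvw, hw⟩, h⟩
      rw [Prod.mk.injEq] at h
      obtain ⟨rfl, rfl⟩ := h
      exact ⟨hv, hw, hvw⟩
  rw [h1, Set.ncard_coe_finset, Finset.card_biUnion]
  · push_cast
    apply Finset.sum_congr rfl
    intro v _
    rw [Finset.card_image_of_injective]
    intro a b h
    exact (Prod.mk.injEq _ _ _ _ ▸ h).2
  · intro v _ w _ hvw
    rw [Function.onFun, Finset.disjoint_left]
    intro e he he'
    rw [Finset.mem_image] at he he'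
    obtain ⟨a, _, rfl⟩ := he
    obtain ⟨b, _, h⟩ := he'
    exact hvw (Prod.mk.injEq _ _ _ _ ▸ h).1.symm

theorem list_of_old {V : Type} (G H : SimpleGraph V) (k : ℕ)
    (h : Pool.Agent.Results.MP_db9399_co.SparseLargeDegrees.ListExtends G H k) :
    ListExtends G H k := by
  intro L M hL hM c d hcd
  obtain ⟨c', d', h1, h2⟩ := h L M hL hM c d ⟨hcd.vert, hcd.edge, hcd.inc⟩
  exact ⟨c', d', ⟨h1.vert, h1.edge, h1.inc⟩, h2⟩

theorem ext_of_old {V : Type} (G H : SimpleGraph V) (k : ℕ)
    (h : Pool.Agent.Results.MP_db9399_co.SparseLargeDegrees.Extends G H k) :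
    Extends G H k := by
  intro c d hcd hc hd
  obtain ⟨c', d', h1, h2⟩ := h c d ⟨hcd.vert, hcd.edge, hcd.inc⟩ hc hd
  exact ⟨c', d', ⟨h1.vert, h1.edge, h1.inc⟩, h2⟩

/-- (1) For all `ε > 0` and `K` there is a `c > 0` such that the following holds for all large `n`
and every graph `G` on `n` vertices with all degrees at most `D`, where `2 (log n) ^ 3 ≤ D ≤ n`. If
there are at most `(K D / n) |X| |Y| + c √(D log n) √(|X| |Y|)` edges between any two sets `X` and
`Y` of vertices, at most `c n √(log n / D)` vertices have degree more than `D - ε √(D log n)`, and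
every vertex has at most `b` neighbours of degree more than `D - 2 b - 2`, for some
`b ≤ c √(D log n)`, then for all distance-3 matchings `H` in `G` and all `k ≥ D + 1`, total
colourings of `H` with `k` colours extend, also from lists of `k` colours.

(2) For every `ε > 0` there are `c > 0` and `κ > 0` such that the same conclusion holds for all
large `n` and every graph on `n` vertices with all degrees at most `D`, `n ^ (1 - κ) ≤ D ≤ n`, in
which at most `c √(D log n)` vertices have degree more than `D - ε √(D log n)`. -/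
theorem result :
    (∀ ε K : ℝ, 0 < ε → ∃ c : ℝ, 0 < c ∧ ∃ N : ℕ, ∀ n : ℕ, N ≤ n →
      ∀ (G : SimpleGraph (Fin n)) (D b : ℕ), (∀ v, (G.neighborSet v).ncard ≤ D) → D ≤ n →
        2 * Real.log n ^ 3 ≤ D →
        (∀ X Y : Finset (Fin n), (between G X Y : ℝ) ≤ K * D / n * X.card * Y.card +
          c * Real.sqrt (D * Real.log n) * Real.sqrt (X.card * Y.card)) →
        (above G (D - ε * Real.sqrt (D * Real.log n)) : ℝ) ≤ c * n * Real.sqrt (Real.log n / D) →
        (b : ℝ) ≤ c * Real.sqrt (D * Real.log n) →
        (∀ v, {w : Fin n | G.Adj v w ∧ D < (G.neighborSet w).ncard + (2 * b + 2)}.ncard ≤ b) →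
        ∀ H : SimpleGraph (Fin n), IsDistThreeMatching G H → ∀ k : ℕ, D + 1 ≤ k →
          Extends G H k ∧ ListExtends G H k) ∧
    ∀ ε : ℝ, 0 < ε → ∃ c κ : ℝ, 0 < c ∧ 0 < κ ∧ ∃ N : ℕ, ∀ n : ℕ, N ≤ n →
      ∀ (G : SimpleGraph (Fin n)) (D : ℕ), (∀ v, (G.neighborSet v).ncard ≤ D) → D ≤ n →
        (n : ℝ) ^ (1 - κ) ≤ D →
        (above G (D - ε * Real.sqrt (D * Real.log n)) : ℝ) ≤ c * Real.sqrt (D * Real.log n) →
        ∀ H : SimpleGraph (Fin n), IsDistThreeMatching G H → ∀ k : ℕ, D + 1 ≤ k →
          Extends G H k ∧ ListExtends G H k := by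
  classical
  have hmono : ∀ (n : ℕ) (G : SimpleGraph (Fin n)) (D : ℕ) (ε ε' : ℝ), ε' ≤ ε →
      ((Finset.univ.filter (fun v => (D : ℝ) - ε' * Real.sqrt (D * Real.log n) <
        Pool.Agent.H162R2.Sparse.dg G v)).card : ℝ) ≤
      (above G (D - ε * Real.sqrt (D * Real.log n)) : ℝ) := by
    intro n G D ε ε' hε
    rw [above_eq]
    have h1 : (Finset.univ.filter (fun v => (D : ℝ) - ε' * Real.sqrt (D * Real.log n) <
        Pool.Agent.H162R2.Sparse.dg G v)) ⊆
        (Finset.univ.filter (fun v => (D : ℝ) - ε * Real.sqrt (D * Real.log n) <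
        Pool.Agent.H162R2.Sparse.dg G v)) := by
      intro v hv
      rw [Finset.mem_filter] at hv ⊢
      refine ⟨hv.1, lt_of_le_of_lt ?_ hv.2⟩
      have : ε' * Real.sqrt (D * Real.log n) ≤ ε * Real.sqrt (D * Real.log n) := by gcongr
      linarith
    exact_mod_cast Finset.card_le_card h1
  have hfin : ∀ (n : ℕ) (G H : SimpleGraph (Fin n)) (k : ℕ),
      Pool.Agent.Results.MP_db9399_co.SparseLargeDegrees.ListExtends G H k →
      Extends G H k ∧ ListExtends G H k := fun n G H k h =>
    ⟨ext_of_old G H k (Pool.Agent.W2helper87.TC.ext_of_list G H k h), list_of_old G H k h⟩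
  constructor
  · intro ε K hε
    obtain ⟨c, hc0, N, h⟩ := Pool.Agent.W2helper87.TC.jumb_total (min ε 1) (max K 1)
      (lt_min hε one_pos) (min_le_right _ _) (le_max_right _ _)
    refine ⟨c, hc0, N, fun n hn G D b hdeg hDn hDl hj hfew hb hnb H hH k hk => ?_⟩
    apply hfin
    refine h n hn G D b (fun v => by rw [← dg_eq]; exact hdeg v) hDn hDl ?_
      ((hmono n G D ε _ (min_le_left _ _)).trans hfew) hb ?_ H ⟨hH.le, hH.matching, hH.dist⟩ k hk
    · intro X Y
      rw [← between_eq]
      refine (hj X Y).trans ?_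
      have h1 : K ≤ max K 1 := le_max_left _ _
      gcongr
    · intro v
      refine le_trans (le_of_eq ?_) (hnb v)
      rw [← Set.ncard_coe_finset]
      congr 1
      ext w
      simp only [Finset.coe_filter, Set.mem_ofPred_eq, Pool.Agent.H162R2.Sparse.mem_nb, dg_eq]
  · intro ε hε
    obtain ⟨c, κ, hc0, hκ0, N, h⟩ := Pool.Agent.W2helper87.TC.dense2_total (min ε 1)
      (lt_min hε one_pos) (min_le_right _ _)
    refine ⟨c, κ, hc0, hκ0, N, fun n hn G D hdeg hDn hDκ hfew H hH k hk => ?_⟩
    apply hfin
    exact h n hn G D (fun v => by rw [← dg_eq]; exact hdeg v) hDn hDκ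
      ((hmono n G D ε _ (min_le_left _ _)).trans hfew) H ⟨hH.le, hH.matching, hH.dist⟩ k hk

end Pool.Agent.Results.MP_db9399_co.PseudorandomGraphs
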