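import Pool.Agent.W2helper87.RP.ProcF

/-!
# Extending total colourings of distance-3 matchings in the random graph process

Let the edges of a dense graph `B` with `n` vertices (for example, of the complete graph) be added
one by one in a random order. With high probability Q1 holds for ALL graphs of this process
simultaneously, from the graph without edges up to the graph with `(1 - η) e(B)` edges, even from
arbitrary lists of `Δ + 1` colours as soon as the maximum degree `Δ` is at least a constant. In
particular this holds for almost all subgraphs of `B` with exactly `m` edges, for each such `m`.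

The result on the random graphs `G(n, p)` (hand-in `RandomGraphsAllDensities`) has failure
probability `n ^ (-δ)` with a small `δ`; there are more than `n` stages of the process, and the
property is not monotone, so it gives neither the statement on the process nor the one on a given
number of edges. It uses that the largest degree exceeds all others by `4`, which is false for some
stages of the process. The new steps, with failure probabilities `n ^ (-6)` for random subgraphs of
each density `p`:

* average degree at least `C log n`: a threshold `k` such that the largest degree exceeds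
  `k + 2 ε √(D log n)`, by the independence of the edges from a set of `n ^ 0.97` vertices to the
  other vertices, while moments of order `46` show that fewer than `n ^ 0.3` vertices have degree at
  least `k`, and that (in graphs that are not too dense) no vertex has `45` neighbours of degree at
  least `k`. If the degrees are at least `(log n) ^ 4`, random graphs are pseudo-random in the sense of
  the hand-in `PseudorandomGraphs`, by a union bound over all pairs of sets of vertices, and the
  deterministic theorem of that hand-in applies. In sparser graphs all small sets of vertices span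
  few edges, and a theorem for such graphs, with a slack `ε √(D log n)` for every `ε`, is proved;
* average degree between `n ^ (-β)` and `C log n`: a threshold `k`, at least a large constant, with a
  vertex of degree at least `k - 7` by a similar argument, while moments of high order show that at
  most `n ^ (1 - κ)` vertices have degree more than `(1 - g) k` (more than `k / 4`, if
  `k ≤ log n / 100`);
* fewer edges: by monotonicity all these graphs are forests with bounded degrees, and the starting
  theorem on bipartite graphs applies.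

The models are compared by the fact that the most likely number of edges of the random subgraph of
density `m / e(B)` is `m`.
-/

set_option autoImplicit false

namespace Pool.Agent.Results.MP_db9399_co.RandomGraphProcess

/-- The colours `c` of the vertices and `d` of the edges form a total colouring of `G`: adjacent
vertices get different colours, distinct edges with a common end get different colours, and an edge
gets a colour different from the colours of its ends. (Values of `d` at pairs that are not edges of
`G` play no role.) -/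
structure IsTotalColoring {V : Type} (G : SimpleGraph V) (c : V → ℕ) (d : Sym2 V → ℕ) :
    Prop where
  vert : ∀ u v, G.Adj u v → c u ≠ c v
  edge : ∀ u v w, G.Adj u v → G.Adj u w → v ≠ w → d s(u, v) ≠ d s(u, w)
  inc : ∀ u v, G.Adj u v → d s(u, v) ≠ c u

/-- `H` (with vertex set `H.support`) is a distance-3 matching in `G`. -/
structure IsDistThreeMatching {V : Type} (G H : SimpleGraph V) : Prop where
  le : H ≤ G
  matching : ∀ u v w, H.Adj u v → H.Adj u w → v = w
  dist : ∀ u ∈ H.support, ∀ v ∈ H.support, u ≠ v → ¬ H.Adj u v → 3 ≤ G.edist u v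

/-- Every total colouring of `H` with the colours `0, …, k - 1` extends to a total colouring of
`G` with these colours. -/
def Extends {V : Type} (G H : SimpleGraph V) (k : ℕ) : Prop :=
  ∀ (c : V → ℕ) (d : Sym2 V → ℕ), IsTotalColoring H c d →
    (∀ v ∈ H.support, c v < k) → (∀ e ∈ H.edgeSet, d e < k) →
    ∃ (c' : V → ℕ) (d' : Sym2 V → ℕ), IsTotalColoring G c' d' ∧
      (∀ v ∈ H.support, c' v = c v) ∧ (∀ e ∈ H.edgeSet, d' e = d e) ∧
      (∀ v, c' v < k) ∧ ∀ e ∈ G.edgeSet, d' e < k

/-- Whenever every vertex and every edge of `G` has a list of at least `k` colours, every total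
colouring of `H` (with any colours) extends to a total colouring of `G` in which the vertices and
edges outside `H` get colours from their lists. -/
def ListExtends {V : Type} (G H : SimpleGraph V) (k : ℕ) : Prop :=
  ∀ (L : V → Finset ℕ) (M : Sym2 V → Finset ℕ), (∀ v, k ≤ (L v).card) →
    (∀ e ∈ G.edgeSet, k ≤ (M e).card) →
    ∀ (c : V → ℕ) (d : Sym2 V → ℕ), IsTotalColoring H c d →
      ∃ (c' : V → ℕ) (d' : Sym2 V → ℕ), IsTotalColoring G c' d' ∧
        (∀ v ∈ H.support, c' v = c v) ∧ (∀ e ∈ H.edgeSet, d' e = d e) ∧
        (∀ v, v ∉ H.support → c' v ∈ L v) ∧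
        ∀ e ∈ G.edgeSet, e ∉ H.edgeSet → d' e ∈ M e

/-- For all distance-3 matchings `H` in `G` (with maximum degree `Δ`): total colourings with
`k ≥ Δ + 2` colours extend; if `Δ ≥ K`, total colourings with `k ≥ Δ + 1` colours extend, also from
lists of `k` colours. -/
def AllExtend {V : Type} (K : ℕ) (G : SimpleGraph V) : Prop :=
  ∀ (H : SimpleGraph V), IsDistThreeMatching G H → ∀ k : ℕ,
    ((∀ v, (G.neighborSet v).ncard + 2 ≤ k) → Extends G H k) ∧
    ((∃ v, K ≤ (G.neighborSet v).ncard) → (∀ v, (G.neighborSet v).ncard + 1 ≤ k) →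
      Extends G H k ∧ ListExtends G H k)

/-- An ordering of the `N` edges of `B` is a bijection `σ` with `{0, …, N - 1}`. The graph formed
by the first `m` edges: -/
def stage {n N : ℕ} (B : SimpleGraph (Fin n)) (σ : B.edgeSet ≃ Fin N) (m : ℕ) :
    SimpleGraph (Fin n) :=
  SimpleGraph.fromEdgeSet {e | ∃ h : e ∈ B.edgeSet, (σ ⟨e, h⟩ : ℕ) < m}

theorem list_of_old {V : Type} (G H : SimpleGraph V) (k : ℕ)
    (h : Pool.Agent.Results.MP_db9399_co.SparseLargeDegrees.ListExtends G H k) :
    ListExtends G H k := by
  intro L M hL hM c d hcd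
  obtain ⟨c', d', h1, h2⟩ := h L M hL hM c d ⟨hcd.vert, hcd.edge, hcd.inc⟩
  exact ⟨c', d', ⟨h1.vert, h1.edge, h1.inc⟩, h2⟩

theorem ext_of_old {V : Type} (G H : SimpleGraph V) (k : ℕ)
    (h : Pool.Agent.Results.MP_db9399_co.SparseLargeDegrees.Extends G H k) :
    Extends G H k := by
  intro c d hcd hc hd
  obtain ⟨c', d', h1, h2⟩ := h c d ⟨hcd.vert, hcd.edge, hcd.inc⟩ hc hd
  exact ⟨c', d', ⟨h1.vert, h1.edge, h1.inc⟩, h2⟩

theorem all_of_old {n : ℕ} (hn : 0 < n) (K : ℕ) (G : SimpleGraph (Fin n))
    (h : Pool.Agent.W2helper87.TC.GdK K G) : AllExtend K G := by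
  have : Nonempty (Fin n) := ⟨⟨0, hn⟩⟩
  obtain ⟨v, hv⟩ := Finite.exists_max (fun v : Fin n => Pool.Agent.H162R2.Sparse.dg G v)
  have hdg : ∀ w, (G.neighborSet w).ncard = Pool.Agent.H162R2.Sparse.dg G w := fun w => by
    rw [Pool.Agent.H162R2.Sparse.dg_eq_ncard]
  intro H hH k
  obtain ⟨h1, h2⟩ := h _ hv ⟨v, rfl⟩ H ⟨hH.le, hH.matching, hH.dist⟩ k
  refine ⟨fun hk => ext_of_old G H k (h2 (by rw [← hdg]; exact hk v)), ?_⟩
  rintro ⟨w, hw⟩ hk
  have hKD : K ≤ Pool.Agent.H162R2.Sparse.dg G v := by
    rw [hdg] at hw
    exact hw.trans (hv w)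
  have h3 := h1 hKD (by rw [← hdg]; exact hk v)
  exact ⟨ext_of_old G H k (Pool.Agent.W2helper87.TC.ext_of_list G H k h3), list_of_old G H k h3⟩

/-- For all `η > 0` and `γ > 0` there are `C`, `K` and `δ > 0` such that for all large `n` and all
graphs `B` on `n` vertices, with `N` edges:

(1) if `N ≥ γ n ^ 2`, then for all but a fraction `n ^ (-δ)` of the `N!` orderings of the edges of
`B`, the graph formed by the first `m` edges has the property `AllExtend K`, for all
`m ≤ (1 - η) N`;

(2) if `B` has a vertex of degree at least `γ n`, then for all but a fraction `1 / n ^ 2` of the `N!`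
orderings of the edges of `B`, the graph formed by the first `m` edges has the property
`AllExtend 0`, for all `m` with `C n log n ≤ m ≤ (1 - η) N`. -/
theorem result : ∀ η γ : ℝ, 0 < η → 0 < γ → ∃ C δ : ℝ, 0 < C ∧ 0 < δ ∧ ∃ K N₀ : ℕ, ∀ n : ℕ,
    N₀ ≤ n → ∀ (B : SimpleGraph (Fin n)) (N : ℕ),
      (γ * (n : ℝ) ^ 2 ≤ N →
        ({σ : B.edgeSet ≃ Fin N | ∃ m : ℕ, m ≤ (1 - η) * N ∧
          ¬ AllExtend K (stage B σ m)}.ncard : ℝ) ≤ N.factorial * (n : ℝ) ^ (-δ)) ∧
      ((∃ v, γ * n ≤ (B.neighborSet v).ncard) →
        ({σ : B.edgeSet ≃ Fin N | ∃ m : ℕ, C * n * Real.log n ≤ m ∧ m ≤ (1 - η) * N ∧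
          ¬ AllExtend 0 (stage B σ m)}.ncard : ℝ) ≤ N.factorial / (n : ℝ) ^ 2) := by
  intro η γ hη hγ
  obtain ⟨C, hC, N₁, h₁⟩ := Pool.Agent.W2helper87.RP.process_mid (min η 1) (min γ 1)
    (lt_min hη one_pos) (min_le_right _ _) (lt_min hγ one_pos) (min_le_right _ _)
  obtain ⟨δ, hδ, K, N₂, h₂⟩ := Pool.Agent.W2helper87.RP.process_full (min η 1) (min γ 1)
    (lt_min hη one_pos) (min_le_right _ _) (lt_min hγ one_pos) (min_le_right _ _)
  refine ⟨C, δ, hC, hδ, K, max (max N₁ N₂) 1, fun n hn B N => ?_⟩
  have hnN₁ : N₁ ≤ n := le_trans (le_max_left _ _) (le_trans (le_max_left _ _) hn)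
  have hnN₂ : N₂ ≤ n := le_trans (le_max_right _ _) (le_trans (le_max_left _ _) hn)
  have hn1 : 0 < n := le_trans (le_max_right _ _) hn
  have hηη : (1 - η) * (N : ℝ) ≤ (1 - min η 1) * N := by
    have : min η 1 ≤ η := min_le_left _ _
    gcongr
  constructor
  · intro hN
    have h3 := h₂ n hnN₂ B N (by
      refine le_trans ?_ hN
      gcongr
      exact min_le_left _ _)
    refine le_trans ?_ h3
    have h4 : {σ : B.edgeSet ≃ Fin N | ∃ m : ℕ, m ≤ (1 - η) * N ∧ ¬ AllExtend K (stage B σ m)} ⊆
        {σ : B.edgeSet ≃ Fin N | ∃ m : ℕ, (m : ℝ) ≤ (1 - min η 1) * N ∧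
          ¬ (Pool.Agent.W2helper87.SR.Gd (Pool.Agent.W2helper87.RP.stage B σ m) ∧
            Pool.Agent.W2helper87.TC.GdK K (Pool.Agent.W2helper87.RP.stage B σ m))} := by
      rintro σ ⟨m, hm1, hm2⟩
      exact ⟨m, hm1.trans hηη, fun hG => hm2 (all_of_old hn1 K _ hG.2)⟩
    exact_mod_cast Set.ncard_le_ncard h4 (Set.toFinite _)
  · rintro ⟨v, hv⟩
    have h3 := h₁ n hnN₁ B ⟨v, by
      rw [← Pool.Agent.H162R2.Sparse.dg_eq_ncard] at hv
      refine le_trans ?_ hv
      gcongr
      exact min_le_left _ _⟩ N
    refine le_trans ?_ h3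
    have h4 : {σ : B.edgeSet ≃ Fin N | ∃ m : ℕ, C * n * Real.log n ≤ m ∧ m ≤ (1 - η) * N ∧
          ¬ AllExtend 0 (stage B σ m)} ⊆
        {σ : B.edgeSet ≃ Fin N | ∃ m : ℕ, (C * n * Real.log n ≤ m ∧
          (m : ℝ) ≤ (1 - min η 1) * N) ∧
          ¬ (Pool.Agent.W2helper87.SR.Gd (Pool.Agent.W2helper87.RP.stage B σ m) ∧
            Pool.Agent.W2helper87.SR.GdTot (Pool.Agent.W2helper87.RP.stage B σ m))} := by
      rintro σ ⟨m, hm1, hm2, hm3⟩
      exact ⟨m, ⟨hm1, hm2.trans hηη⟩, fun hG => hm3 (all_of_old hn1 0 _
        (Pool.Agent.W2helper87.TC.GdK_of_tot 0 _ hG.2))⟩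
    exact_mod_cast Set.ncard_le_ncard h4 (Set.toFinite _)

end Pool.Agent.Results.MP_db9399_co.RandomGraphProcess
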