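import Pool.Agent.W2helper87.TC.FinT

/-!
# Extending total colourings of distance-3 matchings in random graphs of all densities

Q1 holds with high probability for the random graph `G(n, p)`, uniformly in all `p ≤ 1 - η`, even
from arbitrary lists of `Δ + 1` colours if the maximum degree `Δ` is at least a constant. This is
proved in the following generality: for all random graphs with independent edges and edge
probabilities at most `n ^ (c - 1)`, with no other condition on these probabilities, and for the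
random subgraphs of density `p ≤ 1 - η` of all graphs `B` with a vertex of degree at least
`n ^ (1 - δ)`.

* Edge probabilities at most `n ^ (c - 1)`: few vertices have a degree close to `Δ`, and small sets
  of vertices span few edges. The matching is removed with `wrap`, a set of exceptional vertices is
  coloured first together with its edges, with `comb_mainH` (both of the starting file
  `SparseLargeDegrees`), and the other edges are coloured by a random splitting of the vertices and
  colours and Galvin's theorem. If `Δ` is below a constant, the graph has no cycles with high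
  probability, and the starting theorem on bipartite graphs applies.
* `n ^ (c - 1) ≤ p ≤ 1 - η`: with high probability the largest degree exceeds all other degrees by
  at least `4`. The vertex of degree `Δ` is coloured first together with its edges and all vertices,
  and the other edges have lists of at least `Δ - 4` colours in a graph of maximum degree at most
  `Δ - 4`, which is coloured with the deterministic theorem behind the result on the list
  edge-colouring conjecture (`MP_2f9829_co`, `RandomGraphsAllDensities`).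
-/

set_option autoImplicit false

namespace Pool.Agent.Results.MP_db9399_co.RandomGraphsAllDensities

/-- Edge probabilities: `q e` is the probability that the pair `e` is an edge; all pairs are
independent. `prob q P` is the probability that the random graph has the property `P`. -/
noncomputable def prob {n : ℕ} (q : Sym2 (Fin n) → ℝ) (P : SimpleGraph (Fin n) → Prop) : ℝ := by
  classical exact ∑ G : SimpleGraph (Fin n), if P G then
    (∏ e : {e : Sym2 (Fin n) // ¬ e.IsDiag}, if e.1 ∈ G.edgeSet then q e.1 else 1 - q e.1) else 0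

/-- The expected degree of the vertex `v`. -/
noncomputable def expectedDegree {n : ℕ} (q : Sym2 (Fin n) → ℝ) (v : Fin n) : ℝ :=
  ∑ w ∈ Finset.univ.erase v, q s(v, w)

/-- The colours `c` of the vertices and `d` of the edges form a total colouring of `G`: adjacent
vertices get different colours, distinct edges with a common end get different colours, and an edge
gets a colour different from the colours of its ends. (Values of `d` at pairs that are not edges of
`G` play no role.) -/
structure IsTotalColoring {V : Type} (G : SimpleGraph V) (c : V → ℕ) (d : Sym2 V → ℕ) :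
    Prop where
  vert : ∀ u v, G.Adj u v → c u ≠ c v
  edge : ∀ u v w, G.Adj u v → G.Adj u w → v ≠ w → d s(u, v) ≠ d s(u, w)
  inc : ∀ u v, G.Adj u v → d s(u, v) ≠ c u

/-- `H` (with vertex set `H.support`) is a distance-3 matching in `G`. -/
structure IsDistThreeMatching {V : Type} (G H : SimpleGraph V) : Prop where
  le : H ≤ G
  matching : ∀ u v w, H.Adj u v → H.Adj u w → v = w
  dist : ∀ u ∈ H.support, ∀ v ∈ H.support, u ≠ v → ¬ H.Adj u v → 3 ≤ G.edist u v

/-- Every total colouring of `H` with the colours `0, …, k - 1` extends to a total colouring of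
`G` with these colours. -/
def Extends {V : Type} (G H : SimpleGraph V) (k : ℕ) : Prop :=
  ∀ (c : V → ℕ) (d : Sym2 V → ℕ), IsTotalColoring H c d →
    (∀ v ∈ H.support, c v < k) → (∀ e ∈ H.edgeSet, d e < k) →
    ∃ (c' : V → ℕ) (d' : Sym2 V → ℕ), IsTotalColoring G c' d' ∧
      (∀ v ∈ H.support, c' v = c v) ∧ (∀ e ∈ H.edgeSet, d' e = d e) ∧
      (∀ v, c' v < k) ∧ ∀ e ∈ G.edgeSet, d' e < k

/-- Whenever every vertex and every edge of `G` has a list of at least `k` colours, every total
colouring of `H` (with any colours) extends to a total colouring of `G` in which the vertices and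
edges outside `H` get colours from their lists. -/
def ListExtends {V : Type} (G H : SimpleGraph V) (k : ℕ) : Prop :=
  ∀ (L : V → Finset ℕ) (M : Sym2 V → Finset ℕ), (∀ v, k ≤ (L v).card) →
    (∀ e ∈ G.edgeSet, k ≤ (M e).card) →
    ∀ (c : V → ℕ) (d : Sym2 V → ℕ), IsTotalColoring H c d →
      ∃ (c' : V → ℕ) (d' : Sym2 V → ℕ), IsTotalColoring G c' d' ∧
        (∀ v ∈ H.support, c' v = c v) ∧ (∀ e ∈ H.edgeSet, d' e = d e) ∧
        (∀ v, v ∉ H.support → c' v ∈ L v) ∧
        ∀ e ∈ G.edgeSet, e ∉ H.edgeSet → d' e ∈ M e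

/-- For all distance-3 matchings `H` in `G` (with maximum degree `Δ`): total colourings with
`k ≥ Δ + 2` colours extend; if `Δ ≥ K`, total colourings with `k ≥ Δ + 1` colours extend, also from
lists of `k` colours. -/
def AllExtend {V : Type} (K : ℕ) (G : SimpleGraph V) : Prop :=
  ∀ (H : SimpleGraph V), IsDistThreeMatching G H → ∀ k : ℕ,
    ((∀ v, (G.neighborSet v).ncard + 2 ≤ k) → Extends G H k) ∧
    ((∃ v, K ≤ (G.neighborSet v).ncard) → (∀ v, (G.neighborSet v).ncard + 1 ≤ k) →
      Extends G H k ∧ ListExtends G H k)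

theorem list_of_old {V : Type} (G H : SimpleGraph V) (k : ℕ)
    (h : Pool.Agent.Results.MP_db9399_co.SparseLargeDegrees.ListExtends G H k) :
    ListExtends G H k := by
  intro L M hL hM c d hcd
  obtain ⟨c', d', h1, h2⟩ := h L M hL hM c d ⟨hcd.vert, hcd.edge, hcd.inc⟩
  exact ⟨c', d', ⟨h1.vert, h1.edge, h1.inc⟩, h2⟩

theorem ext_of_old {V : Type} (G H : SimpleGraph V) (k : ℕ)
    (h : Pool.Agent.Results.MP_db9399_co.SparseLargeDegrees.Extends G H k) :
    Extends G H k := by
  intro c d hcd hc hd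
  obtain ⟨c', d', h1, h2⟩ := h c d ⟨hcd.vert, hcd.edge, hcd.inc⟩ hc hd
  exact ⟨c', d', ⟨h1.vert, h1.edge, h1.inc⟩, h2⟩

theorem all_of_old {n : ℕ} (hn : 0 < n) (K : ℕ) (G : SimpleGraph (Fin n))
    (h : Pool.Agent.W2helper87.TC.GdK K G) : AllExtend K G := by
  have : Nonempty (Fin n) := ⟨⟨0, hn⟩⟩
  obtain ⟨v, hv⟩ := Finite.exists_max (fun v : Fin n => Pool.Agent.H162R2.Sparse.dg G v)
  have hdg : ∀ w, (G.neighborSet w).ncard = Pool.Agent.H162R2.Sparse.dg G w := fun w => by
    rw [Pool.Agent.H162R2.Sparse.dg_eq_ncard]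
  intro H hH k
  obtain ⟨h1, h2⟩ := h _ hv ⟨v, rfl⟩ H ⟨hH.le, hH.matching, hH.dist⟩ k
  refine ⟨fun hk => ext_of_old G H k (h2 (by rw [← hdg]; exact hk v)), ?_⟩
  rintro ⟨w, hw⟩ hk
  have hKD : K ≤ Pool.Agent.H162R2.Sparse.dg G v := by
    rw [hdg] at hw
    exact hw.trans (hv w)
  have h3 := h1 hKD (by rw [← hdg]; exact hk v)
  exact ⟨ext_of_old G H k (Pool.Agent.W2helper87.TC.ext_of_list G H k h3), list_of_old G H k h3⟩

theorem prob_mono {n : ℕ} (q : Sym2 (Fin n) → ℝ) (hq : ∀ e, 0 ≤ q e ∧ q e ≤ 1)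
    (P Q : SimpleGraph (Fin n) → Prop) (h : ∀ G, P G → Q G) :
    Pool.Agent.W2helper87.SR.pb q P ≤ prob q Q := by
  classical
  unfold Pool.Agent.W2helper87.SR.pb prob
  apply Finset.sum_le_sum
  intro G _
  by_cases hG : P G
  · simp only [if_pos hG, if_pos (h G hG), le_refl]
  · rw [if_neg hG]
    split_ifs
    · apply Finset.prod_nonneg
      intro e _
      split_ifs
      · exact (hq e.1).1
      · linarith [(hq e.1).2]
    · exact le_rfl

/-- (1) There are constants `c > 0`, `C` and `K` such that for all large `n` and every random graph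
on `n` vertices with independent edges and with all edge probabilities at most `n ^ (c - 1)`, the
property `AllExtend K` holds with probability at least `1 - n ^ (-c)`; if some expected degree is
at least `C log n`, then also `AllExtend 0`.

(2) For every `η > 0` there are `δ > 0`, `C` and `K` such that for all large `n` and all
`p ≤ 1 - η`, the property `AllExtend K` holds for the random graph `G(n, p)` with probability at
least `1 - n ^ (-δ)`,

(3) and also for the random subgraph of an arbitrary graph `B` on `n` vertices in which every edge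
of `B` is kept with probability `p`, if the maximum degree of `B` is at least `n ^ (1 - δ)`; if `p`
times the maximum degree of `B` is at least `C log n`, then also `AllExtend 0`. -/
theorem result :
    (∃ c C : ℝ, 0 < c ∧ 0 < C ∧ ∃ K N : ℕ, ∀ n : ℕ, N ≤ n → ∀ q : Sym2 (Fin n) → ℝ,
      (∀ e, 0 ≤ q e ∧ q e ≤ (n : ℝ) ^ (c - 1)) →
      1 - (n : ℝ) ^ (-c) ≤ prob q (AllExtend K) ∧
      ((∃ v, C * Real.log n ≤ expectedDegree q v) →
        1 - (n : ℝ) ^ (-c) ≤ prob q (AllExtend 0))) ∧
    ∀ η : ℝ, 0 < η → ∃ δ C : ℝ, 0 < δ ∧ 0 < C ∧ ∃ K N : ℕ, ∀ n : ℕ, N ≤ n →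
      ∀ p : ℝ, 0 ≤ p → p ≤ 1 - η →
      1 - (n : ℝ) ^ (-δ) ≤ prob (fun _ : Sym2 (Fin n) => p) (AllExtend K) ∧
      ∀ B : SimpleGraph (Fin n), (∃ v, (n : ℝ) ^ (1 - δ) ≤ (B.neighborSet v).ncard) →
        1 - (n : ℝ) ^ (-δ) ≤ prob (B.edgeSet.indicator fun _ => p) (AllExtend K) ∧
        ((∃ v, C * Real.log n ≤ p * (B.neighborSet v).ncard) →
          1 - (n : ℝ) ^ (-δ) ≤ prob (B.edgeSet.indicator fun _ => p) (AllExtend 0)) := by
  classical
  obtain ⟨c₁, C, hc₁0, hc₁1, hC, N₁, h₁⟩ := Pool.Agent.W2helper87.SR.total_random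
  obtain ⟨c₂, hc₂0, hc₂1, K, N₂, h₂⟩ := Pool.Agent.W2helper87.TC.sparse_all_ext
  obtain ⟨c, hc⟩ : ∃ c : ℝ, c = min c₁ c₂ := ⟨_, rfl⟩
  have hc0 : 0 < c := by rw [hc]; exact lt_min hc₁0 hc₂0
  have hcc₁ : c ≤ c₁ := by rw [hc]; exact min_le_left _ _
  have hcc₂ : c ≤ c₂ := by rw [hc]; exact min_le_right _ _
  have hpart1 : ∀ n : ℕ, max (max N₁ N₂) 1 ≤ n → ∀ q : Sym2 (Fin n) → ℝ,
      (∀ e, 0 ≤ q e ∧ q e ≤ (n : ℝ) ^ (c - 1)) →
      1 - (n : ℝ) ^ (-c) ≤ prob q (AllExtend K) ∧
      ((∃ v, C * Real.log n ≤ expectedDegree q v) →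
        1 - (n : ℝ) ^ (-c) ≤ prob q (AllExtend 0)) := by
    intro n hn q hq
    have hnN₁ : N₁ ≤ n := le_trans (le_max_left _ _) (le_trans (le_max_left _ _) hn)
    have hnN₂ : N₂ ≤ n := le_trans (le_max_right _ _) (le_trans (le_max_left _ _) hn)
    have hn1 : 1 ≤ n := le_trans (le_max_right _ _) hn
    have hnr : (1 : ℝ) ≤ n := by exact_mod_cast hn1
    have hmono : ∀ x y : ℝ, x ≤ y → (n : ℝ) ^ x ≤ (n : ℝ) ^ y := fun x y h =>
      Real.rpow_le_rpow_of_exponent_le hnr h
    have hq1 : ∀ e, 0 ≤ q e ∧ q e ≤ 1 := fun e => ⟨(hq e).1, (hq e).2.trans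
      (Real.rpow_le_one_of_one_le_of_nonpos hnr (by linarith))⟩
    constructor
    · have h3 := h₂ n hnN₂ q (fun e => ⟨(hq e).1, (hq e).2.trans (hmono _ _ (by linarith))⟩)
      have h4 : (n : ℝ) ^ (-c₂) ≤ (n : ℝ) ^ (-c) := hmono _ _ (by linarith)
      have h5 := prob_mono q hq1 _ (AllExtend K) fun G hG => all_of_old hn1 K G hG
      linarith
    · intro hv
      have h3 := h₁ n hnN₁ q (fun e => ⟨(hq e).1, (hq e).2.trans (hmono _ _ (by linarith))⟩) hv
      have h4 : (n : ℝ) ^ (-c₁) ≤ (n : ℝ) ^ (-c) := hmono _ _ (by linarith)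
      have h5 := prob_mono q hq1 _ (AllExtend 0) fun G hG => all_of_old hn1 0 G
        (Pool.Agent.W2helper87.TC.GdK_of_tot 0 G hG)
      linarith
  refine ⟨⟨c, C, hc0, hC, K, max (max N₁ N₂) 1, hpart1⟩, fun η' hη' => ?_⟩
  obtain ⟨η, hη⟩ : ∃ η : ℝ, η = min η' 1 := ⟨_, rfl⟩
  have hη0 : 0 < η := by rw [hη]; exact lt_min hη' one_pos
  have hη1 : η ≤ 1 := by rw [hη]; exact min_le_right _ _
  have hηη : η ≤ η' := by rw [hη]; exact min_le_left _ _
  obtain ⟨c₃, hc₃0, hc₃1, N₃, hdense⟩ :=
    Pool.Agent.W2helper87.TC.dense_total c η hc0 (by linarith) hη0 hη1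
  obtain ⟨δ, hδ⟩ : ∃ δ : ℝ, δ = min c c₃ := ⟨_, rfl⟩
  have hδ0 : 0 < δ := by rw [hδ]; exact lt_min hc0 hc₃0
  have hδc : δ ≤ c := by rw [hδ]; exact min_le_left _ _
  have hδc₃ : δ ≤ c₃ := by rw [hδ]; exact min_le_right _ _
  obtain ⟨N₄, hN₄⟩ := Filter.eventually_atTop.1
    ((Pool.Agent.W2helper87.FR.ev_const 2 δ hδ0).and (Filter.eventually_ge_atTop 2))
  refine ⟨δ, C, hδ0, hC, K, max (max (max N₁ N₂) 1) (max N₃ N₄), fun n hn p hp0 hpη => ?_⟩
  obtain ⟨hn2δ, hn2⟩ := hN₄ n (le_trans (le_max_right _ _) (le_trans (le_max_right _ _) hn))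
  have hn1 : 0 < n := by omega
  have hnr : (2 : ℝ) ≤ n := by exact_mod_cast hn2
  have hnr1 : (1 : ℝ) ≤ n := by linarith
  have hn0 : (0 : ℝ) < n := by linarith
  have hle : ∀ x : ℝ, δ ≤ x → (n : ℝ) ^ (-x) ≤ (n : ℝ) ^ (-δ) := by
    intro x hx
    apply Real.rpow_le_rpow_of_exponent_le hnr1
    linarith
  have hncard : ∀ (B : SimpleGraph (Fin n)) (v : Fin n),
      (B.neighborSet v).ncard = Pool.Agent.H162R2.Sparse.dg B v := fun B v => by
    rw [Pool.Agent.H162R2.Sparse.dg_eq_ncard]
  have hp1 : p ≤ 1 := by linarith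
  have h2 : ∀ B : SimpleGraph (Fin n), (∃ v, (n : ℝ) ^ (1 - δ) ≤ (B.neighborSet v).ncard) →
      1 - (n : ℝ) ^ (-δ) ≤ prob (B.edgeSet.indicator fun _ => p) (AllExtend K) ∧
      ((∃ v, C * Real.log n ≤ p * (B.neighborSet v).ncard) →
        1 - (n : ℝ) ^ (-δ) ≤ prob (B.edgeSet.indicator fun _ => p) (AllExtend 0)) := by
    rintro B ⟨v, hv1⟩
    have hqq : (B.edgeSet.indicator fun _ => p) = Pool.Agent.W2helper87.FR.qB B p := by
      funext e
      unfold Pool.Agent.W2helper87.FR.qB
      by_cases he : e ∈ B.edgeSet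
      · rw [Set.indicator_of_mem he, if_pos he]
      · rw [Set.indicator_of_notMem he, if_neg he]
    have hq01 := Pool.Agent.W2helper87.FR.qB_01 B p hp0 hp1
    rw [hqq]
    rcases le_or_gt p ((n : ℝ) ^ (c - 1)) with hp | hp
    · obtain ⟨h3, h4⟩ := hpart1 n (le_trans (le_max_left _ _) hn)
        (Pool.Agent.W2helper87.FR.qB B p)
        (fun e => ⟨(hq01 e).1, (Pool.Agent.W2helper87.FR.qB_le B p hp0 e).trans hp⟩)
      have h5 := hle c hδc
      refine ⟨by linarith, ?_⟩
      rintro ⟨w, hw⟩
      have h6 := h4 ⟨w, by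
        refine hw.trans (le_of_eq ?_)
        have e1 := Pool.Agent.W2helper87.LD.qs_mu (Pool.Agent.W2helper87.FR.qB B p) w
        rw [Pool.Agent.W2helper87.FR.qs_qB, Pool.Agent.W2helper87.FR.cS_univ] at e1
        rw [hncard]
        exact e1⟩
      linarith
    · have h3 := hdense n (le_trans (le_max_left _ _) (le_trans (le_max_right _ _) hn)) B p hp.le
        (by linarith) ⟨v, by
          rw [← hncard]
          refine le_trans ?_ hv1
          apply Real.rpow_le_rpow_of_exponent_le hnr1
          linarith⟩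
      have h4 := hle c₃ hδc₃
      have h5 := fun K' => prob_mono (Pool.Agent.W2helper87.FR.qB B p) hq01 _ (AllExtend K')
        fun G hG => all_of_old hn1 K' G (Pool.Agent.W2helper87.TC.GdK_of_tot K' G hG)
      exact ⟨by linarith [h5 K], fun _ => by linarith [h5 0]⟩
  refine ⟨?_, h2⟩
  have htop : (((⊤ : SimpleGraph (Fin n)).neighborSet ⟨0, hn1⟩).ncard : ℝ) = n - 1 := by
    have h3 : ((⊤ : SimpleGraph (Fin n)).neighborSet ⟨0, hn1⟩).ncard = n - 1 := by
      rw [Set.ncard_eq_toFinset_card']
      simp [Finset.card_compl]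
    rw [h3, Nat.cast_sub hn1]
    norm_num
  have h3 := (h2 ⊤ ⟨⟨0, hn1⟩, by
      rw [htop]
      have e1 : (n : ℝ) ^ (1 - δ) * 2 ≤ n := by
        calc (n : ℝ) ^ (1 - δ) * 2 ≤ (n : ℝ) ^ (1 - δ) * (n : ℝ) ^ δ := by gcongr
          _ = n := by
              rw [← Real.rpow_add hn0]
              simp
      linarith⟩).1
  refine h3.trans (le_of_eq ?_)
  unfold prob
  apply Finset.sum_congr rfl
  intro G _
  congr 1
  apply Finset.prod_congr rfl
  intro e _
  rw [Set.indicator_of_mem (show e.1 ∈ (⊤ : SimpleGraph (Fin n)).edgeSet by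
    rw [SimpleGraph.edgeSet_top]
    exact e.2)]

end Pool.Agent.Results.MP_db9399_co.RandomGraphsAllDensities
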